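import Pool.Agent.H85.RG.Main

/-!
# MP_1fec7a_co, Q1: the inequality fails for every genus `g ≥ 120`

The reduced genus of a simple graph `G` is the least genus of a hypergraph whose adjacency
multigraph is `G`. The question is whether every simple graph `G` of reduced genus `g` satisfies
`χ(G) ≤ max (H(g)) (ω(G) + 1)`, where `H` is Heawood's function. The imported library theorems show
that the answer is negative: there is a counterexample, and for every `b` there are `G` and `g` with
`χ(G) > 1.03 · max (H(g)) (ω(G) + 1) + b`.

Here we show that the inequality fails for every single genus `g ≥ 120`, and by a constant factor,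
`1.05`, for all large `g`: for every `b` and all large `g` there is a simple graph `G` whose reduced
genus is exactly `g`, with `χ(G) > 1.05 · max (H(g)) (ω(G) + 1) + b`.

The proof. (1) Adding a path of length two between two vertices of a graph that are not isolated
raises the genus by at most one (`H85.RG.LemA`), so adding an edge raises the reduced genus by at
most one (`H85.RG.Step`), although the optimal hypergraph may change completely. (2) A linear
hypergraph with two large hyperedges through every vertex has at most `3 n + 6 g` hyperedges with
more than one element (`H85.RG.B1`, by helper 19, and `H25.RG.B2`, by helper 25). (3) So the reduced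
genus is unbounded on the graphs that are obtained from a given graph by adding two independent sets
of new vertices, joined to one old vertex and to each other, and by (1) all large values are taken
in between, with the chromatic number at least the one of the given graph, and the same clique
number (`H85.RG.Every`). (4) The given graphs are the joins of `K_r` with `m` pairwise joined
5-cycles, as in the library. The hypergraph has one large hyperedge, which contains `K_r` and two
adjacent vertices of each 5-cycle; the other edges of the graph are the other hyperedges
(`H85.RG.Clique`). For `m = 2` its genus is at most `3 r + 12`, while `χ = r + 6` and `ω = r + 4`.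
-/

set_option autoImplicit false

namespace Pool.Agent.Results.MP_1fec7a_co.EveryLargeGenus

open Pool.Agent.Results.MP_1fec7a_co.DisproofQ1 (HasReducedGenus heawood)

/-- **Q1 has a negative answer for every genus `g ≥ 120`**: there is a finite simple graph `G` of
reduced genus exactly `g` with `χ(G) > max (H(g)) (ω(G) + 1)`. For every real number `b` and all
large `g` there is one with `χ(G) > 1.05 · max (H(g)) (ω(G) + 1) + b`. -/
theorem result :
    (∀ g : ℕ, 120 ≤ g → ∃ (V : Type) (_ : Finite V) (G : SimpleGraph V), HasReducedGenus G g ∧
      max (heawood g) ((G.cliqueNum : ℝ) + 1) < ENat.toNat G.chromaticNumber) ∧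
    ∀ b : ℝ, ∃ g₁ : ℕ, ∀ g : ℕ, g₁ ≤ g → ∃ (V : Type) (_ : Finite V) (G : SimpleGraph V),
      HasReducedGenus G g ∧
        105 / 100 * max (heawood g) ((G.cliqueNum : ℝ) + 1) + b < ENat.toNat G.chromaticNumber :=
  ⟨Pool.Agent.H85.RG.main1 Pool.Agent.H85.RG.lemB2, Pool.Agent.H85.RG.main2 Pool.Agent.H85.RG.lemB2⟩

end Pool.Agent.Results.MP_1fec7a_co.EveryLargeGenus
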